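import Pool.Agent.H73.BA.Main
import Pool.Agent.H73.AZ.Low

/-!
# Adiabatic paths and circuits on planted k-CNFs

For all but the fraction `2 ^ (-n)` of the `k`-CNFs `G` with `m ≥ C 2 ^ k n` clauses, and for all
but `2 ^ ((α + 2 u + 2 v + e) n)` assignments `z`, no schedule of the following kind finds an
assignment that violates noticeably fewer than `m / 2 ^ k` clauses of the formula `F` of the clauses
of `G` satisfied by `z`, unless the product of spectral gap and success amplitude is at most
`2 ^ (-u n)`.

* The Hamiltonians are `∑ i, a i (W i + (W i)ᴴ)` on `n` qubits and any ancilla register, where the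
  `W i` are words of length at most `r` in fixed contractions, the cost of `F`, sums of arbitrary
  small clause terms over the clauses of `F`, sums of clause terms of the size of the cost that act
  on assignments with at most `r` true literals in the clause (drivers triggered by violated
  clauses, as in random walk algorithms), and oracles that depend on `z` in an arbitrary way at the
  near-solutions.
* The schedule consists of continuous paths along which a band of the spectrum is followed: the
  subspace `V` of all eigenvectors with eigenvalues in an interval of length at most `2 c` whose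
  lower end is low-lying, and whose distance from the rest of the spectrum is the gap.  The band may
  contain exponentially many levels, which may cross each other in an arbitrary way; an isolated
  eigenvector is the case of an interval of length zero.  The coefficients may depend on `G` and on
  `z` in an arbitrary way.
* Between the paths and at the end, circuits may be used which consist of fixed contractions (for
  example arbitrary unitaries), at most `2 ^ (v n)` oracles of the kind above, and evolutions
  `exp (- i H)` of total action at most `k ^ c n`.  The coefficients of the evolutions may depend on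
  `z` in an arbitrary way within the total action `c n`.

The conclusion holds for all vectors of the last band; therefore it also covers all processes, of
arbitrary duration, whose state stays in the followed band up to a small error.

There are at most `c n` words, or at most `2 ^ (c n)` words with coefficient vectors in a set that
is covered by `2 ^ (c n)` boxes of small `ℓ¹` size.

The constant `C` depends only on `κ`, `Λ`, `t`, `r`.  Therefore QAOA circuits of every fixed depth
are covered for `C 2 ^ k n ≤ m ≤ C' 2 ^ k n` and large `k`, with arbitrary mixers and arbitrary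
angles: the angle `γ` in `exp (- i γ * number of violated clauses)` can be reduced modulo `2 π`,
therefore the action of such a gate is at most `π m / 2 ^ k ≤ π C' n`, and angles that depend on
`z` can be rounded to a net.

An energy `E` is low-lying if at most `2 ^ (α n)` eigenvalues of the averaged Hamiltonian (which
does not depend on `z`) are smaller than `E + κ`, or if no energy is lower than `E` and this is true
for some eigenvalue of the averaged Hamiltonian.  By the second part of the theorem, the lower ends
of the bands at the bottom of the spectrum of all annealing Hamiltonians `b A + (1 - b) cost` are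
low-lying if the driver `A` is positive semidefinite and singular, `‖A‖ ≤ 1`, and at most
`2 ^ (α n)` eigenvalues of `A` are small.

The definitions are in `Pool/Agent/H73/BA/Stmt.lean` (`Band`, `Hard`),
`Pool/Agent/H73/AY/Stmt.lean` (`Gate`, `circ`, `COk`), `Pool/Agent/H73/AZ/Stmt.lean` (`Letter`,
`Letter.Ok`, `Letter.op`, `Letter.av`, `Ham`, `Few`, `LowE`, `Cov`),
`Pool/Agent/H73/AD/Stmt.lean` (`Op`, `nsq`, `Bdd`, `pviol`) and `Pool/Agent/H73/QA/Stmt.lean`
(`Cube`, `Clause`, `Violates`).

Proof.  Flatten all letters near `z`.  A vector `b 0` in a spectral subspace of a flattened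
Hamiltonian `H` for an interval of half-width `d` around a low-lying energy `E` starts a chain of
unit vectors with `(H - E) (b j) = d (b (j + 1))`; the images of such vectors under circuits, and
the chains of solutions of the resolvent equations with these images as sources, satisfy equations
with operators that depend on `z` only through sums of few rank one kernels, and whose dependence on
`z` is small in norm, because few of the clauses violated by `z` are violated by an assignment
outside of a small ball around `z` if `k` is large.  Hence, for parameters in a small cell, all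
these families of vectors are `2 ^ (e n)` times a sum of a family in a space of dimension
`2 ^ (α n)` and of a family that is square summable at `z` (expand in the number of perturbations:
few of them are cheap, many of them are exponentially small); so their mass near `z` is small for
all but `2 ^ ((α + 2 u + e) n)` of the `z`.  For the other `z` the band of the actual Hamiltonian
stays close to a spectral subspace of the flattened one that is at least as large: this is true at
the beginning, this property is open and closed along the paths by the gap, and it persists under
jumps by the resolvent equations.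
-/

namespace Pool.Agent.Results.MP_0f8dca_lc.AdiabaticPaths

open Finset Matrix Pool.Agent.H73.QA Pool.Agent.H73.AD
open Pool.Agent.H73.AZ (Letter Ham Few LowE Cov low_ann)
open Pool.Agent.H73.AY (Gate COk)
open Pool.Agent.H73.BA (Hard)

theorem result :
    (∀ (κ Λ t : ℝ) (r : ℕ), 0 < κ → κ ≤ 1 → 0 ≤ Λ → 0 < t →
      ∃ C : ℝ, 0 < C ∧ ∀ α e : ℝ, 0 ≤ α → 0 < e →
      ∃ c : ℝ, 0 < c ∧ ∃ k₀ n₀ : ℕ, ∀ k ≥ k₀, ∀ n ≥ n₀, ∀ m : ℕ, C * 2 ^ k * n ≤ m →
        (Nat.card {G : Fin m → Clause n k // ¬ ∀ (Y : Type) (_ : Fintype Y) (_ : DecidableEq Y)
          (p q : ℕ) (w : Fin p → List (Letter n m Y)) (A : Set (Fin p → ℝ))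
          (T : Fin q → List (Gate n p Y)) (u v : ℝ), 0 ≤ v →
          (p ≤ c * n ∨ (p ≤ (2 : ℝ) ^ (c * n) ∧ Cov c n A)) → q ≤ (2 : ℝ) ^ (c * n) →
          (∀ i, (w i).length ≤ r ∧ ∀ l ∈ w i, l.Ok t r G) →
          (∀ j, COk t G ((k : ℝ) ^ c * n) (c * n) (2 ^ (v * n)) (T j)) →
          (Nat.card {z : Cube n // ¬ Hard α κ Λ t u c A G w T z} : ℝ) ≤
            2 ^ ((α + 2 * u + 2 * v + e) * n)} : ℝ)
        ≤ Nat.card (Fin m → Clause n k) / 2 ^ n) ∧
    (∀ (n k m : ℕ) (G : Fin m → Clause n k) (z : Cube n) (Y : Type) (_ : Fintype Y)
      (_ : DecidableEq Y) (α κ b E : ℝ) (A : Op n Y) (w : Fin 2 → List (Letter n m Y))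
      (a : Fin 2 → ℝ), 0 < κ → κ ≤ 1 → 0 ≤ b → Bdd A 1 →
      (∀ v : Cube n × Y → ℂ, 0 ≤ (star v ⬝ᵥ A *ᵥ v).re) →
      (∃ v : Cube n × Y → ℂ, v ≠ 0 ∧ A *ᵥ v = 0) → Few α κ 0 A →
      w = ![[.fix A], [.cost]] → a = ![b / 2, (1 - b) / 2] →
      (∀ v : Cube n × Y → ℂ, E * nsq v ≤ (star v ⬝ᵥ Ham (Letter.op G z) w a *ᵥ v).re) →
      LowE α (κ / 10) (Ham (Letter.op G z) w a) (Ham Letter.av w a) E) :=
  ⟨fun κ Λ t r hκ hκ1 hΛ ht => Pool.Agent.H73.AY.BI.main κ Λ t r hκ hκ1 hΛ ht,
    fun _ _ _ G z _ _ _ _ _ _ _ _ _ _ hκ0 hκ1 hb0 hbd hpsd hker hfew hw ha hE =>
      low_ann G z hbd hpsd hker hfew hb0 hκ0 hκ1 hw ha hE⟩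

end Pool.Agent.Results.MP_0f8dca_lc.AdiabaticPaths
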