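import Pool.Agent.H18.XZ.All2

/-!
# The exponential hierarchy in EQP, but interactive proofs of exponential size are not better than
guessing for the polynomial hierarchy

Relative to one oracle every language of the exponential hierarchy (all levels, exponentially long
quantifiers and queries; even exponential time with polynomially many alternations) is in `EQP`, but
for every `k` there is a language which is decided by an unambiguous alternating computation with
`k + 1` quantifiers (so it is in `Σ_(k+1)`, and in `UP` if `k = 0`) such that at every large input
length `n` no interactive protocol of exponential size `2 ^ (n / 16)` with linear advice, even if its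
verifier may ask questions about languages in `Σ_k`, proves the non-membership correctly for
noticeably more than half of the inputs; and also no such protocol with exponentially long advice, of
length `2 ^ (n / 30)`, whose verifier tosses at most `n ^ 2 / 1000` coins, in particular no
nonuniform nondeterministic circuit of size `2 ^ (n / 31)` whose gates may be questions about `Σ_k`
machines of size at most `2 ^ (n / 16)` (a question whether a machine of size `m ^ c + c` accepts the
string `y` has size `|y| ^ c + c`).
-/

set_option autoImplicit false

namespace Pool.Agent.Results.MP_0f8dca_lc.ExponentialHierarchy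

open Pool.Agent.H70.OQ (Machine)
open Pool.Agent.H78.XQ (exact)
open Pool.Agent.H66.IP (ins)
open Pool.Agent.H66.IQ (Prot)
open Pool.Agent.H66.AV (alang rights hdr)
open Pool.Agent.H17.XW (Una)
open Pool.Agent.H18.XX (Exa)
open Pool.Agent.H18.XZ (coins)

/-- First, for every `k` some `Σ_(k+1)` machine decides `alang k O` relative to every oracle `O`.

Second, the quantum algorithm `exact s` has `6` rounds of parallel queries, and in each round it
queries at most `4 * 10 ^ 9 * (|s| + 1) ^ 4` strings, which have at most this length.

Third, let `V 0, V 1, …` be alternating oracle machines with exponential time and polynomially many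
alternations: on inputs `x` of length `m` the machine `(V i).M` has `alt m` alternating quantifiers
(the first one is `∃`) over strings of length at most `time m`, followed by at most `time m` adaptive
queries of length at most `time m`, where `alt m + log₂ (time m) ≤ m ^ c + c` (`c = (V i).c`). Let
`G 0, G 1, …` be families of interactive protocols with public coins and with advice, whose verifiers
may ask questions about `Σ_k` machines relative to the oracle, `k = (G j).1`: for each advice string
`a` and each input `x` the protocol `(G j).2 a x` is arbitrary and consists of moves of one bit, coin
tosses of the verifier and bits sent by the prover, who knows everything; then the verifier asks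
adaptively whether `Σ_k` machines accept certain strings and accepts or rejects. For long inputs and
for `|a| ≤ 2 ^ ⌊|x|/30⌋` there are at most `2 ^ ⌊|x|/16⌋` moves and at most `2 ^ ⌊|x|/16⌋` questions,
of size at most `2 ^ ⌊|x|/16⌋` (the question whether a machine of size `m ^ c + c` accepts the string
`y` has size `|y| ^ c + c`). Then there is an oracle `O` such that

* for all `i` and all inputs `x` the quantum algorithm `exact (ins c i x)` decides WITHOUT ERROR
whether `(V i).M` accepts `x` relative to `O`: its acceptance probability is `1` or `0` (the length of
`ins c i x` is polynomial in `|x|` and `i`); so relative to `O` the exponential hierarchy is contained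
in `EQP`;
* for all `k` and all `x` the alternating computation which defines whether `x` is in `alang k O` is
unambiguous at every quantifier: there is at most one witness `u`, for each `u` there is at most one
counterexample `v₁`, for all `u, v₁` there is at most one witness `v₂`, and so on;
* for all `j`, for ALL large `n` and for all advice strings `a` with `200 |a| ≤ n`, and also for all
advice strings `a` with `|a| ≤ 2 ^ ⌊n/30⌋` such that the verifier tosses at most `n ^ 2 / 1000` coins
in the protocols `(G j).2 a x`, `|x| = n` (if it tosses no coins, these protocols are nondeterministic
decision trees, so nonuniform nondeterministic circuits of size `2 ^ (n / 31)` are covered whose gates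
may be questions about `Σ_k` machines of size at most `2 ^ ⌊n/16⌋`), the number of the inputs `x` of
length `n` about which `(G j).2 a` is right with respect to the complement of `alang k O`,
`k = (G j).1` (`x` is not in `alang k O` and some prover makes the verifier accept with probability at
least `2/3`, or `x` is in `alang k O` and every prover makes the verifier accept with probability at
most `1/3`), is at most `(1/2 + 2 ^ (-⌊n/64⌋)) 2 ^ n`. -/
theorem result : (∀ k : ℕ, ∃ F : Machine (k + 1), ∀ O, F.lang O = alang k O) ∧
    (∀ s : List Bool, (exact s).T = 6 ∧ (exact s).Small (4 * 10 ^ 9 * (s.length + 1) ^ 4)) ∧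
    ∀ (V : ℕ → Exa) (G : ℕ → (k : ℕ) × (List Bool → List Bool → Prot k)),
      (∀ j, ∃ n₀, ∀ a x : List Bool, n₀ ≤ x.length → a.length ≤ 2 ^ (x.length / 30) →
        ((G j).2 a x).Within (2 ^ (x.length / 16))) →
      ∃ O : List Bool → Bool,
        (∀ i x, (x ∈ (V i).M.lang O → (exact (ins (V i).c i x)).prob O = 1) ∧
          (x ∉ (V i).M.lang O → (exact (ins (V i).c i x)).prob O = 0)) ∧
        (∀ (k : ℕ) (x : List Bool), Una O (k + 1) x.length (false :: hdr k x)) ∧
        ∀ j, ∃ n₀, ∀ n ≥ n₀, ∀ a : List Bool,
          (200 * a.length ≤ n ∨ (a.length ≤ 2 ^ (n / 30) ∧
            ∀ x : List Bool, x.length = n → 1000 * coins ((G j).2 a x) ≤ n ^ 2)) →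
          (rights ((G j).2 a) O n : ℝ) ≤ (1 / 2 + (1 / 2) ^ (n / 64)) * 2 ^ n :=
  ⟨Pool.Agent.H66.AV.pf_AML, Pool.Agent.H78.XQ.pf_SIZ, Pool.Agent.H18.XZ.qf_FI3⟩

end Pool.Agent.Results.MP_0f8dca_lc.ExponentialHierarchy
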