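import Pool.Agent.H75.GG.All

/-!
# Quantum heuristics whose errors cannot be found

An oracle relative to which one explicit polynomial-time quantum algorithm errs on some inputs for the
polynomial hierarchy, because a language with unique witnesses is hard at every large length for quantum
algorithms with advice, but no efficient quantum sampler finds its errors, even if it may use the
polynomial hierarchy. For classical algorithms this is impossible relative to every oracle.
-/

set_option autoImplicit false

namespace Pool.Agent.Results.MP_0f8dca_lc.HiddenErrors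

open Filter
open Pool.Agent.H6.NB (QAlg Correct)
open Pool.Agent.H70.OQ (Machine)
open Pool.Agent.H75.GS (wlang Uniq Sampler Err ext)

/-- First, some `Σ_1` machine decides `wlang O` relative to every oracle `O`.

Second, let `V i` be a machine of the level `κ i` of the polynomial hierarchy; let `Q i α` be a family of
quantum algorithms with advice `α` which make at most `C * 2 ^ ((1 - ε) * n)` queries of length at most
`h i n` on the inputs of length `n` (`ε > 0`; `C` and `ε` depend on `i`; `n ≤ h i n`); let `S j` be a
family of quantum samplers, `S j m` makes at most `2 ^ g j m` queries of length at most `2 ^ g j m`, where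
`g j` is monotone and `m ≤ 2 ^ g j m`. Suppose that `g j (h i n ^ a) ^ a ≤ n` for all `i`, `j`, `a` and all
large `n`. Then there is an oracle `O` such that

* no string has more than one witness; so `wlang O` is in `UP` relative to `O`;
* for all `i`, all large `n` and every advice `α` of length at most `h i n`, the algorithm `Q i α` errs on
`wlang O` at an input of length `n`;
* for all `i`, `j`, `d` and all large `m`, let `S j m` ask its queries to the oracle `ext V d O`, that is
to `O` and to the languages of the machines `V 0`, ..., `V (d - 1)` relative to `O`; the probability that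
it outputs a string `x` of length at least `m` on which the quantum algorithm
`fun x => yesProb O (inst (V i).c i x)` for the machine `V i` errs is at most `2 ^ (- g j m)`.

For example `h i n = n ^ i + i` and `g j m = j * log m` (algorithms and samplers of polynomial size), or
`h i n = 2 ^ ((log n) ^ i)` and `g j m = (log m) ^ j`, with the obvious roundings. -/
theorem result :
    (∃ F : Machine 1, ∀ O, F.lang O = wlang O) ∧
    ∀ (κ : ℕ → ℕ) (V : ∀ i, Machine (κ i)) (h g : ℕ → ℕ → ℕ)
      (Q : ℕ → List Bool → List Bool → QAlg) (S : ℕ → ℕ → Sampler),
      (∀ i, (∀ n, n ≤ h i n) ∧ ∃ (C : ℕ) (ε : ℝ), 0 < ε ∧ ∀ α x, (Q i α x).Short (h i x.length) ∧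
        ((Q i α x).T : ℝ) ≤ C * 2 ^ ((1 - ε) * x.length)) →
      (∀ j, Monotone (g j) ∧ ∀ m, m ≤ 2 ^ g j m ∧ (S j m).alg.Short (2 ^ g j m) ∧
        (S j m).alg.T ≤ 2 ^ g j m) →
      (∀ i j a, ∀ᶠ n in atTop, g j (h i n ^ a) ^ a ≤ n) →
      ∃ O : List Bool → Bool, Uniq O ∧
        (∀ i, ∀ᶠ n in atTop, ∀ α : List Bool, α.length ≤ h i n →
          ∃ x : List Bool, x.length = n ∧ ¬ Correct (Q i α x) O (wlang O) x) ∧
        ∀ i j d, ∀ᶠ m in atTop,
          (S j m).hit (ext V d O) {x | x ∈ Err (V i) i O ∧ m ≤ x.length} ≤ 1 / 2 ^ g j m :=
  Pool.Agent.H75.GG.a_FNG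

end Pool.Agent.Results.MP_0f8dca_lc.HiddenErrors
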