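import Pool.Agent.H68.QT.All
import Pool.Agent.H70.QC.INC
import Pool.Agent.H70.PX.Evn

/-!
# For every k an oracle relative to which EQP contains Σ_k, the level Σ_(k+j) is contained in QCΣ_j, and
towers of bounded-error quantum machines with j nested existential quantifiers do not contain Σ_(k+j+1)
-/

set_option autoImplicit false

namespace Pool.Agent.Results.MP_0f8dca_lc.QuantumHierarchy

open Pool.Agent.H6.NB (QAlg)
open Pool.Agent.H70.OQ (Machine hlang)
open Pool.Agent.H78.XQ (exact)
open Pool.Agent.H78.OY (PCorrect)
open Pool.Agent.H70.RW (yesW inw)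
open Pool.Agent.H70.QC (Poly Yes1 No0)
open Pool.Agent.H68.QC (QMach OneSpecialP)
open Pool.Agent.H68.QT (TMach TVal)

/-- Let `k ≥ 1`. The theorem has six parts; the first five hold relative to every oracle.

1. For every `l` the language `hlang l O` is in the level `Σ_(l+1)`.

2. If for every `n = 2 ^ r` exactly one string of length `n` is special, then the set of the strings in
`hlang l O` whose length is a power of two, and its complement, are in the level `Σ_(l+1)`.

3. The quantum algorithm `exact s` has `6` rounds of parallel queries, and in each round it queries at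
most `4 * 10 ^ 9 * (|s| + 1) ^ 4` strings, which have at most this length.

4. `Σ_l` is contained in `QCΣ_l` (with polynomially many queries and the acceptance probabilities `1` and
`0`).

5. `QCΣ_j` is contained in the class of the towers `TMach j`: a tower with `j` quantifiers is a
bounded-error quantum algorithm which may query the oracle and the answers to the questions whether
there is a `v` for which a tower with `j - 1` quantifiers accepts (a query whose tower does not keep its
promise may be answered arbitrarily, the algorithm has to be right for all these answers).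

6. Let `V 0, V 1, …` be `Σ_k` oracle machines and `F i` a `Σ_(k + f i)` oracle machine (for instance all of
them). Then there are `QCΣ_(f i)` machines `G i` with polynomially many queries such that for all
sequences `U i` of `QCΣ_(j i)` machines, `M i` of towers with `a i` quantifiers and `R i` of sets of
quantum algorithms (for instance the verifier of a protocol with all strategies of the provers), for
which inputs of length `n` make at most `C * 2 ^ ((1/2 - ε) * n)` queries of length at most `n ^ c + c`
(`ε > 0`), there is an oracle `O` with the following properties.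

* The languages of all `V i` are decided WITHOUT ERROR by the explicit polynomial-time quantum algorithm
with the acceptance probability `yesW` (it calls `exact` for polynomially many strings and then makes
one query), the string `inw (V i).c (2 * i) x` has a length which is polynomial in `|x|`.
* The languages of all `F i` are decided by the `QCΣ_(f i)` machines `G i`, where for all strings of the
quantifiers which matter the quantum algorithm accepts with probability `1` or `0` (`Yes1`, `No0`).
* Every `F i` errs for infinitely many `n` on the input `0ⁿ` with respect to `hlang (k + f i) O`.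
* For all `l ≥ 1` and `n = 2 ^ r` exactly one string of length `n` is special.
* Every `U i` errs for infinitely many `n = 2 ^ r` on the input `0ⁿ` with respect to `hlang (k + j i) O`.
* Every tower `M i` errs for infinitely many `n = 2 ^ r` on `0ⁿ` with respect to `hlang (k + a i) O`.
* If `j i = b + 1` then `U i` errs for infinitely many `n` on the input `0ⁿ` with respect to the complement
of `hlang (k + b) O`.
* Every `R i` errs for infinitely many `n` on the input `0ⁿ` with respect to the complement of `hlang k O`.

So relative to `O`, the polynomial hierarchy and the quantum classical hierarchy are infinite, `EQP`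
contains `Σ_k`, `Σ_(k+j)` is contained in `QCΣ_j` for every `j`, but `Σ_(k+j+1) ∩ Π_(k+j+1)` is not contained
in the towers with `j` quantifiers, which contain `QCΣ_j`; `Π_(k+j+1)` is not contained in `QCΣ_(j+1)`,
and `Π_(k+1)` is not in `QMA` or `MIP*`. -/
theorem result (k : ℕ) (hk : 1 ≤ k) :
    (∀ l : ℕ, ∃ F : Machine (l + 1), ∀ O, F.lang O = hlang l O) ∧
    (∀ l : ℕ, ∃ E E' : Machine (l + 1), ∀ O, OneSpecialP l O →
      E.lang O = {x | x ∈ hlang l O ∧ ∃ r, x.length = 2 ^ r} ∧ E'.lang O = (E.lang O)ᶜ) ∧
    (∀ s : List Bool, (exact s).T = 6 ∧ (exact s).Small (4 * 10 ^ 9 * (s.length + 1) ^ 4)) ∧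
    (∀ (l : ℕ) (F : Machine l), ∃ U : QMach l, Poly U ∧
      ∀ O x, (x ∈ F.lang O → Yes1 U O x) ∧ (x ∉ F.lang O → No0 U O x)) ∧
    (∀ (j : ℕ) (U : QMach j), ∃ M : TMach j, ∀ O x,
      (U.Yes O x → TVal (x.length ^ M.c + M.c) j (M.tow x) O true) ∧
        (U.No O x → TVal (x.length ^ M.c + M.c) j (M.tow x) O false)) ∧
    ∀ (V : ℕ → Machine k) (f : ℕ → ℕ) (F : ∀ i, Machine (k + f i)),
      ∃ G : ∀ i, QMach (f i), (∀ i, Poly (G i)) ∧
      ∀ (j a : ℕ → ℕ) (U : ∀ i, QMach (j i)) (M : ∀ i, TMach (a i))
        (R : ℕ → List Bool → Set QAlg),
        (∀ i, ∃ (c C : ℕ) (ε : ℝ), 0 < ε ∧ ∀ x : List Bool, ∀ A ∈ R i x,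
          A.Short (x.length ^ c + c) ∧ (A.T : ℝ) ≤ C * 2 ^ ((1 / 2 - ε) * x.length)) →
        ∃ O : List Bool → Bool,
          (∀ i x, (x ∈ (V i).lang O → yesW O (inw (V i).c (2 * i) x) = 1) ∧
            (x ∉ (V i).lang O → yesW O (inw (V i).c (2 * i) x) = 0)) ∧
          (∀ i x, (x ∈ (F i).lang O → Yes1 (G i) O x) ∧ (x ∉ (F i).lang O → No0 (G i) O x)) ∧
          (∀ i m, ∃ n ≥ m, ¬ (List.replicate n false ∈ (F i).lang O ↔
            List.replicate n false ∈ hlang (k + f i) O)) ∧
          (∀ l, 1 ≤ l → OneSpecialP l O) ∧
          (∀ i m, ∃ n ≥ m, (∃ r, n = 2 ^ r) ∧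
            ¬ (U i).Right O (hlang (k + j i) O) (List.replicate n false)) ∧
          (∀ i m, ∃ n ≥ m, (∃ r, n = 2 ^ r) ∧
            ¬ (M i).Right O (hlang (k + a i) O) (List.replicate n false)) ∧
          (∀ i b m, j i = b + 1 → ∃ n ≥ m,
            ¬ (U i).Right O (hlang (k + b) O)ᶜ (List.replicate n false)) ∧
          ∀ i m, ∃ n ≥ m, ¬ PCorrect (R i (List.replicate n false)) O (hlang k O)ᶜ
            (List.replicate n false) :=
  ⟨fun l => ⟨Pool.Agent.H70.PX.machh l, Pool.Agent.H70.PX.hlm l⟩, Pool.Agent.H60.QC.pf_MCP,
    Pool.Agent.H78.XQ.pf_SIZ, Pool.Agent.H70.QC.pf_INC, Pool.Agent.H68.QT.all_QIT,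
    fun V f F => Pool.Agent.H68.QT.fin2 Pool.Agent.H68.QT.all_FNT k hk V f F⟩

end Pool.Agent.Results.MP_0f8dca_lc.QuantumHierarchy
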